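import Mathlib
import Pool.Agent.Lib.MP_c17089_co.Grid

set_option autoImplicit false

namespace Pool.Agent.Results.MP_c17089_co.SphericalNotPlanar

open Pool.Agent.Lib.MP_c17089_co
open scoped RealInnerProductSpace

/-- The intersection graph of a family of sets. -/
def interGraph {V α : Type} (S : V → Set α) : SimpleGraph V where
  Adj u v := u ≠ v ∧ (S u ∩ S v).Nonempty
  symm := ⟨fun _ _ h => ⟨h.1.symm, by rw [Set.inter_comm]; exact h.2⟩⟩
  loopless := ⟨fun _ h => h.1 rfl⟩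

/-- A disk graph: isomorphic to the intersection graph of a finite family of closed disks in the
plane with positive radii. -/
def IsDG {V : Type} (G : SimpleGraph V) : Prop :=
  ∃ (W : Type) (_ : Finite W) (c : W → EuclideanSpace ℝ (Fin 2)) (ρ : W → ℝ),
    (∀ w, 0 < ρ w) ∧ Nonempty (G ≃g interGraph fun w => Metric.closedBall (c w) (ρ w))

/-- The unit sphere in three-space. -/
abbrev Sph2 : Type := Metric.sphere (0 : EuclideanSpace ℝ (Fin 3)) 1

/-- The closed spherical disk of centre `c` and geodesic radius `r`. -/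
def sphericalDisk (c : Sph2) (r : ℝ) : Set Sph2 :=
  {x | InnerProductGeometry.angle (x : EuclideanSpace ℝ (Fin 3)) (c : EuclideanSpace ℝ (Fin 3)) ≤ r}

/-- A spherical uniform disk graph. -/
def IsSUDG {V : Type} (G : SimpleGraph V) : Prop :=
  ∃ r : ℝ, 0 < r ∧ r < Real.pi ∧ ∃ (W : Type) (_ : Finite W) (c : W → Sph2),
    Nonempty (G ≃g interGraph fun w => sphericalDisk (c w) r)

theorem angle_le_of_cos_le {x y : EuclideanSpace ℝ (Fin 3)} {t : ℝ} (h0 : 0 ≤ t) (hpi : t ≤ Real.pi)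
    (h : Real.cos t ≤ Real.cos (InnerProductGeometry.angle x y)) :
    InnerProductGeometry.angle x y ≤ t := by
  by_contra hcon
  push Not at hcon
  have := Real.strictAntiOn_cos ⟨h0, hpi⟩
    ⟨InnerProductGeometry.angle_nonneg x y, InnerProductGeometry.angle_le_pi x y⟩ hcon
  linarith

theorem disks_meet {c d : Sph2} :
    (sphericalDisk c (Real.pi / 6) ∩ sphericalDisk d (Real.pi / 6)).Nonempty ↔
      1 / 2 ≤ ⟪(c : EuclideanSpace ℝ (Fin 3)), (d : EuclideanSpace ℝ (Fin 3))⟫ := by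
  obtain ⟨c, hc⟩ := c
  obtain ⟨d, hd⟩ := d
  have hc1 : ‖c‖ = 1 := mem_sphere_zero_iff_norm.mp hc
  have hd1 : ‖d‖ = 1 := mem_sphere_zero_iff_norm.mp hd
  have hpi := Real.pi_pos
  show _ ↔ 1 / 2 ≤ ⟪c, d⟫
  constructor
  · rintro ⟨x, hx1, hx2⟩
    have h1 : InnerProductGeometry.angle (x : EuclideanSpace ℝ (Fin 3)) c ≤ Real.pi / 6 := hx1
    have h2 : InnerProductGeometry.angle (x : EuclideanSpace ℝ (Fin 3)) d ≤ Real.pi / 6 := hx2
    have h3 := InnerProductGeometry.angle_le_angle_add_angle c (x : EuclideanSpace ℝ (Fin 3)) d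
    rw [InnerProductGeometry.angle_comm c (x : EuclideanSpace ℝ (Fin 3))] at h3
    have h4 : InnerProductGeometry.angle c d ≤ Real.pi / 3 := by linarith
    have h5 : Real.cos (Real.pi / 3) ≤ Real.cos (InnerProductGeometry.angle c d) :=
      Real.strictAntiOn_cos.antitoneOn
        ⟨InnerProductGeometry.angle_nonneg c d, InnerProductGeometry.angle_le_pi c d⟩
        ⟨by positivity, by linarith⟩ h4
    rw [Real.cos_pi_div_three, InnerProductGeometry.cos_angle, hc1, hd1] at h5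
    simpa using h5
  · intro h
    have hcc : ⟪c, c⟫ = 1 := by rw [real_inner_self_eq_norm_sq, hc1]; norm_num
    have hdd : ⟪d, d⟫ = 1 := by rw [real_inner_self_eq_norm_sq, hd1]; norm_num
    set t := ⟪c, d⟫ with ht
    have hs : ‖c + d‖ ^ 2 = 2 + 2 * t := by
      rw [norm_add_sq_real, hc1, hd1]; ring
    have hspos : 0 < ‖c + d‖ := by
      have : 0 < ‖c + d‖ ^ 2 := by rw [hs]; linarith
      nlinarith [norm_nonneg (c + d)]
    have hn : ‖(‖c + d‖⁻¹ : ℝ) • (c + d)‖ = 1 := by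
      rw [norm_smul, norm_inv, norm_norm, inv_mul_cancel₀ hspos.ne']
    have hcos : Real.cos (Real.pi / 6) ≤ (1 + t) / ‖c + d‖ := by
      rw [Real.cos_pi_div_six, le_div_iff₀ hspos]
      have h3 : Real.sqrt 3 ^ 2 = 3 := Real.sq_sqrt (by norm_num)
      have hsq : (Real.sqrt 3 / 2 * ‖c + d‖) ^ 2 ≤ (1 + t) ^ 2 := by
        rw [mul_pow, div_pow, h3, hs]
        nlinarith
      exact abs_le_of_sq_le_sq' hsq (by linarith) |>.2
    refine ⟨⟨(‖c + d‖⁻¹ : ℝ) • (c + d), by rw [mem_sphere_zero_iff_norm]; exact hn⟩, ?_, ?_⟩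
    · show InnerProductGeometry.angle ((‖c + d‖⁻¹ : ℝ) • (c + d)) c ≤ Real.pi / 6
      apply angle_le_of_cos_le (by positivity) (by linarith)
      rw [InnerProductGeometry.cos_angle, hn, hc1, real_inner_smul_left, inner_add_left, hcc,
        real_inner_comm, ← ht]
      convert hcos using 1
      field_simp
    · show InnerProductGeometry.angle ((‖c + d‖⁻¹ : ℝ) • (c + d)) d ≤ Real.pi / 6
      apply angle_le_of_cos_le (by positivity) (by linarith)
      rw [InnerProductGeometry.cos_angle, hn, hd1, real_inner_smul_left, inner_add_left, hdd, ← ht]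
      convert hcos using 1
      field_simp
      ring

theorem result : ∃ (n : ℕ) (G : SimpleGraph (Fin n)), IsSUDG G ∧ ¬ IsDG G := by
  obtain ⟨X, hfin, hunit, N⟩ := exists_net
  have : Finite X := hfin
  set c₀ : X → Sph2 := fun x => ⟨x, by rw [mem_sphere_zero_iff_norm]; exact hunit x x.2⟩ with hc₀
  set G₀ : SimpleGraph X := interGraph fun x => sphericalDisk (c₀ x) (Real.pi / 6) with hG₀
  obtain ⟨n, ⟨e⟩⟩ := Finite.exists_equiv_fin X
  let iso : (G₀.comap e.symm) ≃g G₀ := ⟨e.symm, Iff.rfl⟩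
  refine ⟨n, G₀.comap e.symm, ⟨Real.pi / 6, by positivity, by linarith [Real.pi_pos], X,
    inferInstance, c₀, ⟨iso⟩⟩, ?_⟩
  rintro ⟨W, _, c, ρ, hρ, ⟨φ⟩⟩
  let ψ : G₀ ≃g interGraph (fun w => Metric.closedBall (c w) (ρ w)) := iso.symm.trans φ
  let L : EuclideanSpace ℝ (Fin 2) ≃ₗᵢ[ℝ] ℂ := Complex.orthonormalBasisOneI.repr.symm
  classical
  let C : E3 → ℂ := fun v => if h : v ∈ X then L (c (ψ ⟨v, h⟩)) else 0
  let R : E3 → ℝ := fun v => if h : v ∈ X then ρ (ψ ⟨v, h⟩) else 0
  have key : ∀ u v : E3, ∀ (hu : u ∈ X) (hv : v ∈ X), u ≠ v →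
      (1 / 2 ≤ ⟪u, v⟫ ↔ ‖C u - C v‖ ≤ R u + R v) := by
    intro u v hu hv huv
    have h1 : G₀.Adj ⟨u, hu⟩ ⟨v, hv⟩ ↔ 1 / 2 ≤ ⟪u, v⟫ := by
      constructor
      · intro h
        exact disks_meet.mp h.2
      · intro h
        refine ⟨fun h' => huv (congrArg Subtype.val h'), disks_meet.mpr h⟩
    have h2 : (interGraph (fun w => Metric.closedBall (c w) (ρ w))).Adj (ψ ⟨u, hu⟩) (ψ ⟨v, hv⟩) ↔
        ‖C u - C v‖ ≤ R u + R v := by
      have hne : ψ ⟨u, hu⟩ ≠ ψ ⟨v, hv⟩ := fun h =>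
        huv (congrArg Subtype.val (ψ.injective h))
      have hC : ‖C u - C v‖ = dist (c (ψ ⟨u, hu⟩)) (c (ψ ⟨v, hv⟩)) := by
        simp only [C, hu, hv, dif_pos]
        rw [← map_sub, L.norm_map, dist_eq_norm]
      have hR : R u + R v = ρ (ψ ⟨u, hu⟩) + ρ (ψ ⟨v, hv⟩) := by
        simp only [R, hu, hv, dif_pos]
      rw [hC, hR, ← not_lt, ← disjoint_closedBall_closedBall_iff (hρ _).le (hρ _).le,
        Set.not_disjoint_iff_nonempty_inter]
      exact ⟨fun h => h.2, fun h => ⟨hne, h⟩⟩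
    rw [← h1, ← h2]
    exact ψ.map_adj_iff.symm
  refine no_realisation N C R ⟨?_, ?_⟩
  · intro u hu v hv h
    by_cases huv : u = v
    · subst huv
      have : 0 < R u := by
        simp only [R, hu, dif_pos]
        exact hρ _
      rw [sub_self, norm_zero]
      linarith
    · exact (key u v hu hv huv).mp h
  · intro u hu v hv h
    by_cases huv : u = v
    · subst huv
      rw [real_inner_self_eq_norm_sq, hunit u hu] at h
      norm_num at h
    · by_contra hcon
      push Not at hcon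
      have := (key u v hu hv huv).mpr hcon
      linarith

end Pool.Agent.Results.MP_c17089_co.SphericalNotPlanar
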